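import Pool.Agent.Lib.KV.SpecZ
import Pool.Agent.Lib.KV.SpecK1
import Pool.Agent.Lib.KV.SpecK3
import Pool.Agent.Lib.KV.SpecL
import Pool.Agent.Lib.KV.SpecC

/-!
# KV (MP_64edc4_ag, all dimensions), composition of part A
-/

set_option autoImplicit false

open Set Filter Topology Metric

namespace KV

open KP KVB

theorem tPA (h1 : S_KA) (h2 : S_PkS) (h3 : S_NFb) (h4 : S_TauC) (h5 : S_LL) (h6 : KVC.S_CMain) :
    S_PA := by
  intro N n I U G K hn hI hG hs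
  obtain ⟨J, hJ, c0, hc0, w, hw, hpk⟩ := h1 N n I U hn hI hs
  obtain ⟨m, k, -, hmk, c, O, h, hNF, hcW⟩ :=
    h3 N n (zeroSet J) U c0 w hn (hJ.isOpen_pre c0) hc0 (h2 n _ hc0) hw hpk
  subst hmk
  have hT : ∀ x ∈ O, ∃ r > 0, TauIn (c.pre U) (ball (pt x (h x)) r) := by
    intro x hx
    obtain ⟨r, hr, hr'⟩ := Metric.isOpen_iff.1 c.hW _ (hcW x hx)
    exact ⟨r, hr, h4 N (m + k) J U G K hJ hG c _ hr'⟩
  obtain ⟨O', hO', hL⟩ := h5 m k _ O h hNF hT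
  obtain ⟨F, Om, hF, hB⟩ := h6 N m k J U G K hJ hG c O' h hL (fun x hx => hcW x (hO' hx))
  exact ⟨m, k, F, Om, rfl, hF, hB⟩

end KV
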