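import Pool.Agent.Lib.KV.SpecZ
import Pool.Agent.Lib.KV.B.SpecE

/-!
# KV (MP_64edc4_ag, all dimensions), the output of part B in the form used in the assembly
-/

set_option autoImplicit false

open Set Filter Topology Metric

namespace KV

theorem tPB (h1 : KVB.S_PB) : S_PB :=
  fun N m k _ U _ _ Γ _ _ hG hpd hq F Om hF hB => h1 N m k F Om U hF hB Γ hG hpd hq

end KV
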